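import Mathlib

/-!
A negative answer to the question whether a regular CIS graph `G` such that `G` and its
complement are connected, well-covered and irreducible has to be vertex-transitive.

The examples are iterated lexicographic products.  Let `R` be the `3 × 3` rook graph and let
`O` be the octahedron.  Both are 4-regular CIS graphs all of whose maximal cliques have three
vertices, and both are well-covered.  If `H` is any graph as in the question then so is
`R[(R ⊔ O)[H]]`, and its automorphism group has more orbits than one can see from `H`: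
the number of closed walks of length three separates the vertices over `R` from those over `O`.
-/

open SimpleGraph Matrix

namespace Pool.Agent.Results.MP_509871_co.ManyOrbits

/-- Every maximal clique meets every maximal stable set. -/
def IsCIS {V : Type} (G : SimpleGraph V) : Prop :=
  ∀ C S : Set V, Maximal G.IsClique C → Maximal G.IsIndepSet S → (C ∩ S).Nonempty

/-- All maximal stable sets have the same number of vertices. -/
def IsWellCovered {V : Type} (G : SimpleGraph V) : Prop :=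
  ∀ S T : Set V, Maximal G.IsIndepSet S → Maximal G.IsIndepSet T → S.ncard = T.ncard

/-- Distinct vertices have distinct (open) neighbourhoods. -/
def IsIrreducible {V : Type} (G : SimpleGraph V) : Prop :=
  ∀ u v : V, G.neighborSet u = G.neighborSet v → u = v

/-- Every vertex can be mapped to every other one by an automorphism. -/
def IsVertexTransitive {V : Type} (G : SimpleGraph V) : Prop :=
  ∀ u v : V, ∃ φ : G ≃g G, φ u = v

/-! ### Auxiliary notions -/

/-- Lexicographic product. -/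
def lex {V W : Type} (G : SimpleGraph V) (H : SimpleGraph W) : SimpleGraph (V × W) where
  Adj x y := G.Adj x.1 y.1 ∨ (x.1 = y.1 ∧ H.Adj x.2 y.2)
  symm := ⟨fun _ _ h => h.elim (fun h => Or.inl h.symm) (fun h => Or.inr ⟨h.1.symm, h.2.symm⟩)⟩
  loopless := ⟨fun _ h => h.elim (fun h => G.loopless.irrefl _ h) (fun h => H.loopless.irrefl _ h.2)⟩

lemma lex_adj {V W : Type} (G : SimpleGraph V) (H : SimpleGraph W) (x y : V × W) :
    (lex G H).Adj x y ↔ G.Adj x.1 y.1 ∨ (x.1 = y.1 ∧ H.Adj x.2 y.2) := Iff.rfl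

lemma lex_compl {V W : Type} (G : SimpleGraph V) (H : SimpleGraph W) :
    (lex G H)ᶜ = lex Gᶜ Hᶜ := by
  ext ⟨a, b⟩ ⟨c, d⟩
  simp only [compl_adj, lex_adj, ne_eq, Prod.mk.injEq, not_or, not_and]
  constructor
  · rintro ⟨h1, h2, h3⟩
    by_cases hac : a = c
    · exact Or.inr ⟨hac, h1 hac, h3 hac⟩
    · exact Or.inl ⟨hac, h2⟩
  · rintro (⟨h1, h2⟩ | ⟨h1, h2, h3⟩)
    · exact ⟨fun h => absurd h h1, h2, fun h => absurd h h1⟩
    · subst h1
      exact ⟨fun _ => h2, G.loopless.irrefl _, fun _ => h3⟩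

/-- All maximal stable sets have exactly `k` elements. -/
def WC {V : Type} (G : SimpleGraph V) (k : ℕ) : Prop :=
  ∀ S : Set V, Maximal G.IsIndepSet S → S.ncard = k

lemma maximal_indep_iff {V : Type} (G : SimpleGraph V) (S : Set V) :
    Maximal G.IsIndepSet S ↔ G.IsIndepSet S ∧ ∀ v, v ∉ S → ∃ u ∈ S, G.Adj u v := by
  constructor
  · intro h
    refine ⟨h.1, fun v hv => ?_⟩
    by_contra hcon
    push Not at hcon
    have h2 : G.IsIndepSet (insert v S) := by
      intro x hx y hy hxy
      rcases hx with rfl | hx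
      · rcases hy with rfl | hy
        · exact absurd rfl hxy
        · exact fun h => hcon y hy h.symm
      · rcases hy with rfl | hy
        · exact hcon x hx
        · exact h.1 hx hy hxy
    exact hv (h.2 h2 (Set.subset_insert v S) (Set.mem_insert v S))
  · rintro ⟨h1, h2⟩
    refine ⟨h1, fun T hT hST v hv => ?_⟩
    by_contra hvS
    obtain ⟨u, hu, huv⟩ := h2 v hvS
    exact hT (hST hu) hv huv.ne huv

lemma maximal_clique_iff {V : Type} (G : SimpleGraph V) (S : Set V) :
    Maximal G.IsClique S ↔ Maximal Gᶜ.IsIndepSet S := by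
  have h : Gᶜ.IsIndepSet = G.IsClique := by
    funext T
    exact propext (isIndepSet_compl G)
  rw [h]

/-! ### Stable sets of lexicographic products -/

section LexInd

variable {V W : Type} (G : SimpleGraph V) (H : SimpleGraph W)

lemma lex_ind_fst [Nonempty W] {S : Set (V × W)} (hS : Maximal (lex G H).IsIndepSet S) :
    Maximal G.IsIndepSet (Prod.fst '' S) := by
  rw [maximal_indep_iff] at hS ⊢
  obtain ⟨h1, h2⟩ := hS
  refine ⟨?_, ?_⟩
  · rintro _ ⟨x, hx, rfl⟩ _ ⟨y, hy, rfl⟩ hxy hadj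
    exact h1 hx hy (fun h => hxy (by rw [h])) (Or.inl hadj)
  · intro v hv
    obtain ⟨w⟩ := ‹Nonempty W›
    obtain ⟨u, hu, huv⟩ := h2 (v, w) (fun h => hv ⟨_, h, rfl⟩)
    rcases huv with huv | ⟨huv, _⟩
    · exact ⟨u.1, ⟨u, hu, rfl⟩, huv⟩
    · exact absurd ⟨u, hu, huv⟩ hv

lemma lex_ind_snd {S : Set (V × W)} (hS : Maximal (lex G H).IsIndepSet S) {a : V}
    (ha : a ∈ Prod.fst '' S) : Maximal H.IsIndepSet {b | (a, b) ∈ S} := by
  rw [maximal_indep_iff] at hS ⊢
  obtain ⟨h1, h2⟩ := hS
  refine ⟨?_, ?_⟩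
  · intro x hx y hy hxy hadj
    exact h1 hx hy (fun h => hxy (Prod.mk.inj h).2) (Or.inr ⟨rfl, hadj⟩)
  · intro b hb
    obtain ⟨u, hu, huv⟩ := h2 (a, b) hb
    rcases huv with huv | ⟨huv, huv'⟩
    · obtain ⟨x, hx, hxa⟩ := ha
      have hne : u ≠ x := by
        rintro rfl
        rw [hxa] at huv
        exact G.loopless.irrefl _ huv
      refine absurd (Or.inl ?_) (h1 hu hx hne)
      rw [hxa]
      exact huv
    · obtain ⟨u1, u2⟩ := u
      simp only at huv huv'
      subst huv
      exact ⟨u2, hu, huv'⟩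

lemma lex_WC [Fintype V] [Fintype W] [Nonempty W] {k l : ℕ} (hG : WC G k) (hH : WC H l) :
    WC (lex G H) (k * l) := by
  classical
  intro S hS
  have h1 := hG _ (lex_ind_fst G H hS)
  have h2 : ∀ a : (Prod.fst '' S : Set V), Nat.card {b : W // ((a : V), b) ∈ S} = l := by
    intro a
    exact hH _ (lex_ind_snd G H hS a.2)
  let e : S ≃ Σ a : (Prod.fst '' S : Set V), {b : W // ((a : V), b) ∈ S} :=
    { toFun := fun x => ⟨⟨x.1.1, ⟨x.1, x.2, rfl⟩⟩, ⟨x.1.2, x.2⟩⟩
      invFun := fun y => ⟨(y.1.1, y.2.1), y.2.2⟩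
      left_inv := fun x => rfl
      right_inv := fun y => rfl }
  rw [← Nat.card_coe_set_eq, Nat.card_congr e, Nat.card_sigma]
  rw [Finset.sum_congr rfl (fun a _ => h2 a)]
  rw [Finset.sum_const, smul_eq_mul, Finset.card_univ, ← Nat.card_eq_fintype_card,
    Nat.card_coe_set_eq, h1]

lemma lex_CIS [Nonempty W] (hG : IsCIS G) (hH : IsCIS H) : IsCIS (lex G H) := by
  intro C S hC hS
  have hC' : Maximal (lex Gᶜ Hᶜ).IsIndepSet C := by
    rw [← lex_compl, ← maximal_clique_iff]; exact hC
  have hC1 : Maximal G.IsClique (Prod.fst '' C) := by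
    rw [maximal_clique_iff]; exact lex_ind_fst _ _ hC'
  obtain ⟨a, haC, haS⟩ := hG _ _ hC1 (lex_ind_fst _ _ hS)
  have hC2 : Maximal H.IsClique {b | (a, b) ∈ C} := by
    rw [maximal_clique_iff]; exact lex_ind_snd _ _ hC' haC
  obtain ⟨b, hbC, hbS⟩ := hH _ _ hC2 (lex_ind_snd _ _ hS haS)
  exact ⟨(a, b), hbC, hbS⟩

lemma lex_connected [Nonempty W] [Nontrivial V] (hG : G.Connected) : (lex G H).Connected := by
  have key : ∀ a a' : V, G.Adj a a' → ∀ b b' : W, (lex G H).Reachable (a, b) (a', b') :=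
    fun a a' h b b' => Adj.reachable (G := lex G H) (u := (a, b)) (v := (a', b')) (Or.inl h)
  have key2 : ∀ a : V, ∀ b b' : W, (lex G H).Reachable (a, b) (a, b') := by
    intro a b b'
    obtain ⟨c, hc⟩ := hG.preconnected.exists_adj_of_nontrivial a
    exact (key a c hc b b).trans (key c a hc.symm b b')
  have key3 : ∀ a a' : V, G.Reachable a a' → ∀ b b' : W,
      (lex G H).Reachable (a, b) (a', b') := by
    rintro a a' ⟨p⟩
    induction p with
    | nil => exact key2 _
    | cons h p ih => exact fun b b' => (key _ _ h b b).trans (ih b b')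
  have := hG.nonempty
  exact { preconnected := fun x y => key3 _ _ (hG.preconnected x.1 y.1) x.2 y.2
          nonempty := inferInstance }

lemma lex_irreducible (hH : IsIrreducible H) (hH2 : ∀ b, ∃ y, H.Adj b y) :
    IsIrreducible (lex G H) := by
  rintro ⟨a, b⟩ ⟨a', b'⟩ h
  have h' : ∀ z : V × W, (lex G H).Adj (a, b) z ↔ (lex G H).Adj (a', b') z := by
    intro z
    have := Set.ext_iff.1 h z
    simpa [mem_neighborSet] using this
  have haa : a = a' := by
    by_contra hne
    have hnadj : ¬ G.Adj a a' := by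
      intro hadj
      have := (h' (a', b')).1 (Or.inl hadj)
      exact (lex G H).loopless.irrefl _ this
    obtain ⟨y, hy⟩ := hH2 b
    rcases (h' (a, y)).1 (Or.inr ⟨rfl, hy⟩) with h1 | h1
    · exact hnadj h1.symm
    · exact hne h1.1.symm
  subst haa
  have hb : b = b' := by
    apply hH
    ext y
    have := h' (a, y)
    simpa [lex_adj, mem_neighborSet] using this
  rw [hb]

lemma lex_noiso (hH2 : ∀ b, ∃ y, H.Adj b y) (x : V × W) : ∃ y, (lex G H).Adj x y := by
  obtain ⟨y, hy⟩ := hH2 x.2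
  exact ⟨(x.1, y), Or.inr ⟨rfl, hy⟩⟩

end LexInd

/-! ### Disjoint unions -/

section SumInd

variable {V W : Type} {G : SimpleGraph V} {H : SimpleGraph W}

lemma sum_ind {S : Set (V ⊕ W)} (hS : Maximal (G ⊕g H).IsIndepSet S) :
    Maximal G.IsIndepSet (Sum.inl ⁻¹' S) ∧ Maximal H.IsIndepSet (Sum.inr ⁻¹' S) := by
  rw [maximal_indep_iff] at hS
  obtain ⟨h1, h2⟩ := hS
  constructor
  · rw [maximal_indep_iff]
    refine ⟨?_, ?_⟩
    · intro x hx y hy hxy hadj
      exact h1 hx hy (fun h => hxy (Sum.inl_injective h)) (sum_adj_inl.2 hadj)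
    · intro v hv
      obtain ⟨u, hu, huv⟩ := h2 (Sum.inl v) hv
      rcases u with u | u
      · exact ⟨u, hu, sum_adj_inl.1 huv⟩
      · simp at huv
  · rw [maximal_indep_iff]
    refine ⟨?_, ?_⟩
    · intro x hx y hy hxy hadj
      exact h1 hx hy (fun h => hxy (Sum.inr_injective h)) (sum_adj_inr.2 hadj)
    · intro v hv
      obtain ⟨u, hu, huv⟩ := h2 (Sum.inr v) hv
      rcases u with u | u
      · simp at huv
      · exact ⟨u, hu, sum_adj_inr.1 huv⟩

lemma sum_WC [Finite V] [Finite W] {k l : ℕ} (hG : WC G k) (hH : WC H l) :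
    WC (G ⊕g H) (k + l) := by
  intro S hS
  obtain ⟨h1, h2⟩ := sum_ind hS
  have e : S = Sum.inl '' (Sum.inl ⁻¹' S) ∪ Sum.inr '' (Sum.inr ⁻¹' S) :=
    (Set.image_preimage_inl_union_image_preimage_inr S).symm
  rw [e, Set.ncard_union_eq, Set.ncard_image_of_injective _ Sum.inl_injective,
    Set.ncard_image_of_injective _ Sum.inr_injective, hG _ h1, hH _ h2]
  · rw [Set.disjoint_left]
    rintro _ ⟨x, _, rfl⟩ ⟨y, _, h⟩
    exact Sum.inr_ne_inl h

lemma sum_clique [Nonempty V] {C : Set (V ⊕ W)} (hC : Maximal (G ⊕g H).IsClique C) :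
    (∃ C' : Set V, Maximal G.IsClique C' ∧ C = Sum.inl '' C') ∨
    (∃ C' : Set W, Maximal H.IsClique C' ∧ C = Sum.inr '' C') := by
  have hC2 := hC
  rw [maximal_clique_iff, maximal_indep_iff] at hC2
  obtain ⟨_, h2⟩ := hC2
  have h1 : (G ⊕g H).IsClique C := hC.1
  have hne : ∃ x, x ∈ C := by
    by_contra hcon
    push Not at hcon
    obtain ⟨v⟩ := ‹Nonempty V›
    obtain ⟨u, hu, _⟩ := h2 (Sum.inl v) (hcon _)
    exact hcon u hu
  obtain ⟨x, hx⟩ := hne
  rcases x with x | x
  · left
    refine ⟨Sum.inl ⁻¹' C, ?_, ?_⟩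
    · rw [maximal_clique_iff, maximal_indep_iff]
      refine ⟨?_, ?_⟩
      · rw [isIndepSet_compl]
        intro y hy z hz hyz
        exact sum_adj_inl.1 (h1 hy hz (fun h => hyz (Sum.inl_injective h)))
      · intro v hv
        obtain ⟨u, hu, huv⟩ := h2 (Sum.inl v) hv
        rcases u with u | u
        · refine ⟨u, hu, ?_⟩
          rw [compl_adj] at huv ⊢
          exact ⟨fun h => huv.1 (by rw [h]), fun h => huv.2 (sum_adj_inl.2 h)⟩
        · have := h1 hx hu (by simp)
          simp at this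
    · ext y
      constructor
      · intro hy
        rcases y with y | y
        · exact ⟨y, hy, rfl⟩
        · have := h1 hx hy (by simp)
          simp at this
      · rintro ⟨z, hz, rfl⟩
        exact hz
  · right
    refine ⟨Sum.inr ⁻¹' C, ?_, ?_⟩
    · rw [maximal_clique_iff, maximal_indep_iff]
      refine ⟨?_, ?_⟩
      · rw [isIndepSet_compl]
        intro y hy z hz hyz
        exact sum_adj_inr.1 (h1 hy hz (fun h => hyz (Sum.inr_injective h)))
      · intro v hv
        obtain ⟨u, hu, huv⟩ := h2 (Sum.inr v) hv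
        rcases u with u | u
        · have := h1 hx hu (by simp)
          simp at this
        · refine ⟨u, hu, ?_⟩
          rw [compl_adj] at huv ⊢
          exact ⟨fun h => huv.1 (by rw [h]), fun h => huv.2 (sum_adj_inr.2 h)⟩
    · ext y
      constructor
      · intro hy
        rcases y with y | y
        · have := h1 hx hy (by simp)
          simp at this
        · exact ⟨y, hy, rfl⟩
      · rintro ⟨z, hz, rfl⟩
        exact hz

lemma sum_coWC [Nonempty V] {k : ℕ} (hG : WC Gᶜ k) (hH : WC Hᶜ k) : WC (G ⊕g H)ᶜ k := by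
  intro S hS
  rw [← maximal_clique_iff] at hS
  rcases sum_clique hS with ⟨C, hC, rfl⟩ | ⟨C, hC, rfl⟩
  · rw [Set.ncard_image_of_injective _ Sum.inl_injective]
    exact hG _ (by rwa [← maximal_clique_iff])
  · rw [Set.ncard_image_of_injective _ Sum.inr_injective]
    exact hH _ (by rwa [← maximal_clique_iff])

lemma sum_CIS [Nonempty V] (hG : IsCIS G) (hH : IsCIS H) : IsCIS (G ⊕g H) := by
  intro C S hC hS
  obtain ⟨h1, h2⟩ := sum_ind hS
  rcases sum_clique hC with ⟨C', hC', rfl⟩ | ⟨C', hC', rfl⟩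
  · obtain ⟨x, hx, hx'⟩ := hG _ _ hC' h1
    exact ⟨Sum.inl x, ⟨x, hx, rfl⟩, hx'⟩
  · obtain ⟨x, hx, hx'⟩ := hH _ _ hC' h2
    exact ⟨Sum.inr x, ⟨x, hx, rfl⟩, hx'⟩

end SumInd

/-! ### The two base graphs -/

/-- The `3 × 3` rook graph. -/
def rook : SimpleGraph (Fin 3 × Fin 3) where
  Adj x y := x ≠ y ∧ (x.1 = y.1 ∨ x.2 = y.2)
  symm := ⟨fun _ _ h => ⟨h.1.symm, h.2.imp Eq.symm Eq.symm⟩⟩
  loopless := ⟨fun _ h => h.1 rfl⟩

instance : DecidableRel rook.Adj := fun x y =>
  inferInstanceAs (Decidable (x ≠ y ∧ (x.1 = y.1 ∨ x.2 = y.2)))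

/-- The octahedron. -/
def octa : SimpleGraph (Fin 3 × Fin 2) where
  Adj x y := x.1 ≠ y.1
  symm := ⟨fun _ _ h => h.symm⟩
  loopless := ⟨fun _ h => h rfl⟩

instance : DecidableRel octa.Adj := fun x y => inferInstanceAs (Decidable (x.1 ≠ y.1))

/-- Transfer of a decidable statement about finsets to maximal stable sets. -/
lemma ind_transfer {V : Type} [Fintype V] (G : SimpleGraph V)
    (P : Finset V → Prop)
    (h : ∀ F : Finset V, ((∀ x ∈ F, ∀ y ∈ F, ¬ G.Adj x y) ∧
      (∀ v, v ∉ F → ∃ u ∈ F, G.Adj u v)) → P F)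
    (S : Set V) (hS : Maximal G.IsIndepSet S) : ∃ F : Finset V, (F : Set V) = S ∧ P F := by
  classical
  rw [maximal_indep_iff] at hS
  refine ⟨S.toFinset, by simp, h _ ⟨?_, ?_⟩⟩
  · intro x hx y hy hadj
    rw [Set.mem_toFinset] at hx hy
    exact hS.1 hx hy hadj.ne hadj
  · intro v hv
    rw [Set.mem_toFinset] at hv
    obtain ⟨u, hu, huv⟩ := hS.2 v hv
    exact ⟨u, by rwa [Set.mem_toFinset], huv⟩

/-- Auxiliary predicate: maximal stable sets of the rook graph. -/
def RI (F : Finset (Fin 3 × Fin 3)) : Prop :=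
  (∀ x ∈ F, ∀ y ∈ F, ¬ rook.Adj x y) ∧ (∀ v, v ∉ F → ∃ u ∈ F, rook.Adj u v)

/-- Auxiliary predicate. -/
def RI' (F : Finset (Fin 3 × Fin 3)) : Prop :=
  F.card = 3 ∧ (∀ i : Fin 3, ∃ x ∈ F, x.1 = i) ∧ (∀ i : Fin 3, ∃ x ∈ F, x.2 = i)

/-- Auxiliary predicate: maximal cliques of the rook graph. -/
def RC (F : Finset (Fin 3 × Fin 3)) : Prop :=
  (∀ x ∈ F, ∀ y ∈ F, ¬ (x ≠ y ∧ ¬ rook.Adj x y)) ∧
    (∀ v, v ∉ F → ∃ u ∈ F, (u ≠ v ∧ ¬ rook.Adj u v))

/-- Auxiliary predicate. -/
def RC' (F : Finset (Fin 3 × Fin 3)) : Prop :=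
  F.card = 3 ∧ ((∃ i : Fin 3, ∀ x : Fin 3 × Fin 3, x.1 = i → x ∈ F) ∨
      (∃ i : Fin 3, ∀ x : Fin 3 × Fin 3, x.2 = i → x ∈ F))

/-- Auxiliary predicate: maximal stable sets of the octahedron. -/
def OI (F : Finset (Fin 3 × Fin 2)) : Prop :=
  (∀ x ∈ F, ∀ y ∈ F, ¬ octa.Adj x y) ∧ (∀ v, v ∉ F → ∃ u ∈ F, octa.Adj u v)

/-- Auxiliary predicate. -/
def OI' (F : Finset (Fin 3 × Fin 2)) : Prop :=
  F.card = 2 ∧ (∃ i : Fin 3, ∀ x : Fin 3 × Fin 2, x.1 = i → x ∈ F)

/-- Auxiliary predicate: maximal cliques of the octahedron. -/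
def OC (F : Finset (Fin 3 × Fin 2)) : Prop :=
  (∀ x ∈ F, ∀ y ∈ F, ¬ (x ≠ y ∧ ¬ octa.Adj x y)) ∧
    (∀ v, v ∉ F → ∃ u ∈ F, (u ≠ v ∧ ¬ octa.Adj u v))

/-- Auxiliary predicate. -/
def OC' (F : Finset (Fin 3 × Fin 2)) : Prop :=
  F.card = 3 ∧ (∀ i : Fin 3, ∃ x ∈ F, x.1 = i)

instance (F : Finset (Fin 3 × Fin 3)) : Decidable (RI F) := by unfold RI; infer_instance
instance (F : Finset (Fin 3 × Fin 3)) : Decidable (RI' F) := by unfold RI'; infer_instance
instance (F : Finset (Fin 3 × Fin 3)) : Decidable (RC F) := by unfold RC; infer_instance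
instance (F : Finset (Fin 3 × Fin 3)) : Decidable (RC' F) := by unfold RC'; infer_instance
instance (F : Finset (Fin 3 × Fin 2)) : Decidable (OI F) := by unfold OI; infer_instance
instance (F : Finset (Fin 3 × Fin 2)) : Decidable (OI' F) := by unfold OI'; infer_instance
instance (F : Finset (Fin 3 × Fin 2)) : Decidable (OC F) := by unfold OC; infer_instance
instance (F : Finset (Fin 3 × Fin 2)) : Decidable (OC' F) := by unfold OC'; infer_instance

set_option maxRecDepth 100000 in
lemma rook_ind_dec : ∀ F : Finset (Fin 3 × Fin 3), RI F → RI' F := by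
  decide +kernel

set_option maxRecDepth 100000 in
lemma rook_clique_dec : ∀ F : Finset (Fin 3 × Fin 3), RC F → RC' F := by
  decide +kernel

set_option maxRecDepth 100000 in
lemma octa_ind_dec : ∀ F : Finset (Fin 3 × Fin 2), OI F → OI' F := by
  decide +kernel

set_option maxRecDepth 100000 in
lemma octa_clique_dec : ∀ F : Finset (Fin 3 × Fin 2), OC F → OC' F := by
  decide +kernel

lemma rook_WC : WC rook 3 := by
  intro S hS
  obtain ⟨F, rfl, hF⟩ := ind_transfer _ _ rook_ind_dec S hS
  rw [Set.ncard_coe_finset]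
  exact hF.1

lemma rook_coWC : WC rookᶜ 3 := by
  intro S hS
  obtain ⟨F, rfl, hF⟩ := ind_transfer _ _ rook_clique_dec S hS
  rw [Set.ncard_coe_finset]
  exact hF.1

lemma octa_WC : WC octa 2 := by
  intro S hS
  obtain ⟨F, rfl, hF⟩ := ind_transfer _ _ octa_ind_dec S hS
  rw [Set.ncard_coe_finset]
  exact hF.1

lemma octa_coWC : WC octaᶜ 3 := by
  intro S hS
  obtain ⟨F, rfl, hF⟩ := ind_transfer _ _ octa_clique_dec S hS
  rw [Set.ncard_coe_finset]
  exact hF.1

lemma rook_CIS : IsCIS rook := by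
  intro C S hC hS
  rw [maximal_clique_iff] at hC
  obtain ⟨F, rfl, hF⟩ := ind_transfer _ _ rook_clique_dec C hC
  obtain ⟨F', rfl, hF'⟩ := ind_transfer _ _ rook_ind_dec S hS
  rcases hF.2 with ⟨i, hi⟩ | ⟨i, hi⟩
  · obtain ⟨x, hx, hxi⟩ := hF'.2.1 i
    exact ⟨x, hi x hxi, hx⟩
  · obtain ⟨x, hx, hxi⟩ := hF'.2.2 i
    exact ⟨x, hi x hxi, hx⟩

lemma octa_CIS : IsCIS octa := by
  intro C S hC hS
  rw [maximal_clique_iff] at hC
  obtain ⟨F, rfl, hF⟩ := ind_transfer _ _ octa_clique_dec C hC
  obtain ⟨F', rfl, hF'⟩ := ind_transfer _ _ octa_ind_dec S hS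
  obtain ⟨i, hi⟩ := hF'.2
  obtain ⟨x, hx, hxi⟩ := hF.2 i
  exact ⟨x, hx, hi x hxi⟩

/-- The disjoint union of the rook graph and the octahedron. -/
abbrev base : SimpleGraph ((Fin 3 × Fin 3) ⊕ (Fin 3 × Fin 2)) := rook ⊕g octa

lemma base_WC : WC base 5 := sum_WC rook_WC octa_WC

lemma base_coWC : WC baseᶜ 3 := sum_coWC rook_coWC octa_coWC

lemma base_CIS : IsCIS base := sum_CIS rook_CIS octa_CIS

lemma rook_regular (v : Fin 3 × Fin 3) : (rook.neighborSet v).ncard = 4 := by
  have h : ∀ v, (Finset.univ.filter (fun w => rook.Adj v w)).card = 4 := by decide +kernel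
  rw [← h v, ← Set.ncard_coe_finset]
  congr 1
  ext w
  simp

lemma octa_regular (v : Fin 3 × Fin 2) : (octa.neighborSet v).ncard = 4 := by
  have h : ∀ v, (Finset.univ.filter (fun w => octa.Adj v w)).card = 4 := by decide +kernel
  rw [← h v, ← Set.ncard_coe_finset]
  congr 1
  ext w
  simp

lemma base_regular (v : (Fin 3 × Fin 3) ⊕ (Fin 3 × Fin 2)) : (base.neighborSet v).ncard = 4 := by
  rcases v with v | v
  · rw [neighborSet_sum_inl, Set.ncard_image_of_injective _ Sum.inl_injective, rook_regular]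
  · rw [neighborSet_sum_inr, Set.ncard_image_of_injective _ Sum.inr_injective, octa_regular]

lemma rook_connected : rook.Connected := by
  have h : ∀ x y : Fin 3 × Fin 3, rook.Adj x y ∨ x = y ∨ ∃ z, rook.Adj x z ∧ rook.Adj z y := by
    decide +kernel
  refine { preconnected := fun x y => ?_, nonempty := inferInstance }
  rcases h x y with h | rfl | ⟨z, h1, h2⟩
  · exact h.reachable
  · exact Reachable.refl _
  · exact h1.reachable.trans h2.reachable

lemma rook_co_connected : rookᶜ.Connected := by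
  have h : ∀ x y : Fin 3 × Fin 3, rookᶜ.Adj x y ∨ x = y ∨ ∃ z, rookᶜ.Adj x z ∧ rookᶜ.Adj z y := by
    decide +kernel
  refine { preconnected := fun x y => ?_, nonempty := inferInstance }
  rcases h x y with h | rfl | ⟨z, h1, h2⟩
  · exact h.reachable
  · exact Reachable.refl _
  · exact h1.reachable.trans h2.reachable

lemma rook_irreducible : IsIrreducible rook := by
  have h : ∀ x y : Fin 3 × Fin 3, (∀ z, rook.Adj x z ↔ rook.Adj y z) → x = y := by
    decide +kernel
  intro u v huv
  exact h u v (fun z => by simpa [mem_neighborSet] using Set.ext_iff.1 huv z)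

lemma rook_co_irreducible : IsIrreducible rookᶜ := by
  have h : ∀ x y : Fin 3 × Fin 3, (∀ z, rookᶜ.Adj x z ↔ rookᶜ.Adj y z) → x = y := by
    decide +kernel
  intro u v huv
  exact h u v (fun z => by
    have := Set.ext_iff.1 huv z
    simpa only [mem_neighborSet] using this)

/-! ### Closed walks of length three -/

/-- The number of closed walks of length three starting at `v`. -/
def tri {V : Type} [Fintype V] (G : SimpleGraph V) [DecidableRel G.Adj] (v : V) : ℕ :=
  (G.adjMatrix ℕ * G.adjMatrix ℕ * G.adjMatrix ℕ) v v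

lemma tri_iso {V : Type} [Fintype V] (G : SimpleGraph V) [DecidableRel G.Adj] (φ : G ≃g G)
    (v : V) : tri G (φ v) = tri G v := by
  have h : (G.adjMatrix ℕ).submatrix φ φ = G.adjMatrix ℕ :=
    φ.toEmbedding.submatrix_adjMatrix ℕ
  have h2 : (G.adjMatrix ℕ * G.adjMatrix ℕ * G.adjMatrix ℕ).submatrix φ φ =
      G.adjMatrix ℕ * G.adjMatrix ℕ * G.adjMatrix ℕ := by
    have e1 : (φ : V → V) = (φ.toEquiv : V → V) := rfl
    rw [e1, ← submatrix_mul_equiv _ _ _ φ.toEquiv _, ← submatrix_mul_equiv _ _ _ φ.toEquiv _]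
    rw [← e1, h]
  have h3 := congrFun (congrFun h2 v) v
  exact h3

section TriLex

variable {V W : Type} [Fintype V] [Fintype W] [DecidableEq V] [DecidableEq W]
  (G : SimpleGraph V) (H : SimpleGraph W) [DecidableRel G.Adj] [DecidableRel H.Adj]

instance lexDec : DecidableRel (lex G H).Adj := fun x y =>
  inferInstanceAs (Decidable (G.Adj x.1 y.1 ∨ (x.1 = y.1 ∧ H.Adj x.2 y.2)))

/-- The all-ones matrix. -/
abbrev ones (W : Type) : Matrix W W ℕ := Matrix.of fun _ _ => 1

omit [Fintype V] [Fintype W] [DecidableEq W] in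
lemma lex_adjMatrix : (lex G H).adjMatrix ℕ =
    kroneckerMap (· * ·) (G.adjMatrix ℕ) (ones W) +
    kroneckerMap (· * ·) (1 : Matrix V V ℕ) (H.adjMatrix ℕ) := by
  ext ⟨a, b⟩ ⟨c, d⟩
  simp only [adjMatrix_apply, lex_adj, Matrix.add_apply, kroneckerMap_apply, Matrix.of_apply,
    mul_one, Matrix.one_apply]
  by_cases h1 : G.Adj a c
  · have : a ≠ c := h1.ne
    simp [h1, this]
  · by_cases h2 : a = c
    · subst h2
      simp
    · simp [h1, h2]

omit [DecidableEq V] in
lemma row_sum {a : ℕ} (hG : ∀ v, (G.neighborSet v).ncard = a) (v : V) :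
    ∑ j, G.adjMatrix ℕ v j = a := by
  rw [← hG v]
  simp only [adjMatrix_apply]
  rw [Finset.sum_boole, Nat.cast_id, ← Set.ncard_coe_finset]
  congr 1
  ext w
  simp

omit [DecidableEq V] in
lemma adj_sq {a : ℕ} (hG : ∀ v, (G.neighborSet v).ncard = a) (v : V) :
    (G.adjMatrix ℕ * G.adjMatrix ℕ) v v = a := by
  rw [Matrix.mul_apply, ← row_sum G hG v]
  refine Finset.sum_congr rfl (fun j _ => ?_)
  simp only [adjMatrix_apply, G.adj_comm j v]
  split_ifs <;> simp

omit [DecidableEq V] in
lemma col_sum {a : ℕ} (hG : ∀ v, (G.neighborSet v).ncard = a) (v : V) :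
    ∑ j, G.adjMatrix ℕ j v = a := by
  rw [← row_sum G hG v]
  refine Finset.sum_congr rfl (fun j _ => ?_)
  simp only [adjMatrix_apply, G.adj_comm j v]

lemma tri_lex {a b : ℕ} (hG : ∀ v, (G.neighborSet v).ncard = a)
    (hH : ∀ v, (H.neighborSet v).ncard = b) (x : V × W) :
    tri (lex G H) x = tri G x.1 * Fintype.card W ^ 2 + 3 * (a * b * Fintype.card W)
      + tri H x.2 := by
  obtain ⟨g, h⟩ := x
  unfold tri
  rw [lex_adjMatrix]
  have e := fun (A B : Matrix V V ℕ) (A' B' : Matrix W W ℕ) => mul_kronecker_mul A B A' B'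
  simp only [add_mul, mul_add, ← e, one_mul, mul_one, Matrix.add_apply, kroneckerMap_apply]
  have hJJ : ones W * ones W = Fintype.card W • ones W := by
    ext i j
    simp [Matrix.mul_apply]
  have hJB : ones W * H.adjMatrix ℕ = b • ones W := by
    ext i j
    simp only [Matrix.mul_apply, Matrix.of_apply, one_mul, Matrix.smul_apply, smul_eq_mul, mul_one]
    exact col_sum H hH j
  have hBJ : H.adjMatrix ℕ * ones W = b • ones W := by
    ext i j
    simp only [Matrix.mul_apply, Matrix.of_apply, mul_one, Matrix.smul_apply, smul_eq_mul]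
    exact row_sum H hH i
  have hA : G.adjMatrix ℕ g g = 0 := by simp
  rw [hA, adj_sq G hG g]
  simp only [hJJ, hJB, hBJ, Matrix.smul_mul, Matrix.smul_apply,
    Matrix.of_apply, smul_eq_mul, Matrix.one_apply_eq, mul_one, one_mul, zero_mul]
  ring

omit [DecidableEq W] in
lemma tri_lt {b : ℕ} (hH : ∀ v, (H.neighborSet v).ncard = b) (v : W) :
    tri H v < Fintype.card W ^ 2 := by
  have h1 : tri H v ≤ b * b := by
    unfold tri
    rw [Matrix.mul_apply]
    calc ∑ j, (H.adjMatrix ℕ * H.adjMatrix ℕ) v j * H.adjMatrix ℕ j v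
        ≤ ∑ j, (H.adjMatrix ℕ * H.adjMatrix ℕ) v j := by
          refine Finset.sum_le_sum (fun j _ => ?_)
          have : H.adjMatrix ℕ j v ≤ 1 := by
            rw [adjMatrix_apply]
            split_ifs <;> simp
          calc _ ≤ (H.adjMatrix ℕ * H.adjMatrix ℕ) v j * 1 := Nat.mul_le_mul_left _ this
            _ = _ := mul_one _
      _ = ∑ j, ∑ i, H.adjMatrix ℕ v i * H.adjMatrix ℕ i j := by
          simp only [Matrix.mul_apply]
      _ = ∑ i, H.adjMatrix ℕ v i * ∑ j, H.adjMatrix ℕ i j := by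
          rw [Finset.sum_comm]
          simp only [Finset.mul_sum]
      _ = b * b := by
          simp only [row_sum H hH]
          rw [← Finset.sum_mul, row_sum H hH]
  have h2 : b < Fintype.card W := by
    rw [← hH v, ← Nat.card_eq_fintype_card, ← Set.ncard_univ]
    refine Set.ncard_lt_ncard ?_ (Set.toFinite _)
    rw [Set.ssubset_univ_iff]
    intro h
    have : v ∈ H.neighborSet v := by rw [h]; trivial
    exact H.loopless.irrefl v this
  nlinarith

end TriLex

lemma rook_tri (v : Fin 3 × Fin 3) : tri rook v = 4 := by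
  have h : ∀ v, tri rook v = 4 := by decide +kernel
  exact h v

lemma octa_tri (v : Fin 3 × Fin 2) : tri octa v = 8 := by
  have h : ∀ v, tri octa v = 8 := by decide +kernel
  exact h v

lemma tri_congr {V : Type} [Fintype V] (G : SimpleGraph V) (h1 h2 : DecidableRel G.Adj) (v : V) :
    @tri V _ G h1 v = @tri V _ G h2 v := by
  rw [Subsingleton.elim h1 h2]

noncomputable instance baseDec : DecidableRel base.Adj := Classical.decRel _

lemma base_adjMatrix : base.adjMatrix ℕ =
    Matrix.fromBlocks (rook.adjMatrix ℕ) 0 0 (octa.adjMatrix ℕ) := by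
  ext i j
  rcases i with i | i <;> rcases j with j | j
  · simp only [adjMatrix_apply, Matrix.fromBlocks_apply₁₁]
    congr 1
  · simp [adjMatrix_apply]
  · simp [adjMatrix_apply]
  · simp only [adjMatrix_apply, Matrix.fromBlocks_apply₂₂]
    congr 1

lemma base_tri_inl (v : Fin 3 × Fin 3) : tri base (Sum.inl v) = 4 := by
  unfold tri
  rw [base_adjMatrix, Matrix.fromBlocks_multiply, Matrix.fromBlocks_multiply]
  simp only [Matrix.fromBlocks_apply₁₁, Matrix.mul_zero, Matrix.zero_mul, add_zero]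
  exact rook_tri v

lemma base_tri_inr (v : Fin 3 × Fin 2) : tri base (Sum.inr v) = 8 := by
  unfold tri
  rw [base_adjMatrix, Matrix.fromBlocks_multiply, Matrix.fromBlocks_multiply]
  simp only [Matrix.fromBlocks_apply₂₂, Matrix.mul_zero, Matrix.zero_mul, zero_add]
  exact octa_tri v

/-! ### Assembling -/

/-- The properties that pass to lexicographic products. -/
structure Good {V : Type} (G : SimpleGraph V) (d k l : ℕ) : Prop where
  reg : ∀ v, (G.neighborSet v).ncard = d
  cis : IsCIS G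
  wc : WC G k
  cowc : WC Gᶜ l
  irr : IsIrreducible G
  coirr : IsIrreducible Gᶜ
  noiso : ∀ v, ∃ w, G.Adj v w
  conoiso : ∀ v, ∃ w, Gᶜ.Adj v w

lemma lex_regular {V W : Type} [Fintype V] [Fintype W] (G : SimpleGraph V) (H : SimpleGraph W)
    {a b : ℕ} (hG : ∀ v, (G.neighborSet v).ncard = a) (hH : ∀ v, (H.neighborSet v).ncard = b)
    (x : V × W) : ((lex G H).neighborSet x).ncard = a * Fintype.card W + b := by
  have e : (lex G H).neighborSet x =
      (G.neighborSet x.1 ×ˢ (Set.univ : Set W)) ∪ (Prod.mk x.1) '' (H.neighborSet x.2) := by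
    ext ⟨c, d⟩
    simp only [mem_neighborSet, lex_adj, Set.mem_union, Set.mem_prod, Set.mem_univ, and_true,
      Set.mem_image, Prod.mk.injEq]
    constructor
    · rintro (h | ⟨h1, h2⟩)
      · exact Or.inl h
      · exact Or.inr ⟨d, h2, h1, rfl⟩
    · rintro (h | ⟨y, h1, h2, rfl⟩)
      · exact Or.inl h
      · exact Or.inr ⟨h2, h1⟩
  rw [e, Set.ncard_union_eq]
  · rw [Set.ncard_prod, hG, Set.ncard_univ, Nat.card_eq_fintype_card,
      Set.ncard_image_of_injective _ (Prod.mk_right_injective x.1), hH]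
  · rw [Set.disjoint_left]
    rintro _ ⟨h1, _⟩ ⟨y, _, rfl⟩
    exact G.loopless.irrefl _ h1

lemma Good.lex {V W : Type} [Fintype V] [Fintype W] [Nonempty W]
    {G : SimpleGraph V} {H : SimpleGraph W} {a b k l k' l' : ℕ}
    (hreg : ∀ v, (G.neighborSet v).ncard = a) (hcis : IsCIS G) (hwc : WC G k) (hcowc : WC Gᶜ l)
    (hH : Good H b k' l') : Good (lex G H) (a * Fintype.card W + b) (k * k') (l * l') where
  reg := lex_regular G H hreg hH.reg
  cis := lex_CIS G H hcis hH.cis
  wc := lex_WC G H hwc hH.wc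
  cowc := by rw [lex_compl]; exact lex_WC Gᶜ Hᶜ hcowc hH.cowc
  irr := lex_irreducible G H hH.irr hH.noiso
  coirr := by rw [lex_compl]; exact lex_irreducible Gᶜ Hᶜ hH.coirr hH.conoiso
  noiso := lex_noiso G H hH.noiso
  conoiso := by rw [lex_compl]; exact lex_noiso Gᶜ Hᶜ hH.conoiso

lemma rook_good : Good rook 4 3 3 where
  reg := rook_regular
  cis := rook_CIS
  wc := rook_WC
  cowc := rook_coWC
  irr := rook_irreducible
  coirr := rook_co_irreducible
  noiso := by decide +kernel
  conoiso := by decide +kernel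

lemma step {W : Type} [Fintype W] [Nonempty W] (H : SimpleGraph W) {b k l : ℕ}
    (hH : Good H b k l) :
    ∃ b' k' l', Good (lex rook (lex base H)) b' k' l' ∧
      (lex rook (lex base H)).Connected ∧ (lex rook (lex base H))ᶜ.Connected := by
  refine ⟨_, _, _, Good.lex rook_regular rook_CIS rook_WC rook_coWC
    (Good.lex base_regular base_CIS base_WC base_coWC hH), ?_, ?_⟩
  · exact lex_connected _ _ rook_connected
  · rw [lex_compl]
    exact lex_connected _ _ rook_co_connected

lemma main_aux (n : ℕ) : ∃ (V : Type) (_ : Fintype V) (_ : Nonempty V) (G : SimpleGraph V)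
    (_ : DecidableRel G.Adj) (d k l : ℕ), Good G d k l ∧ G.Connected ∧ Gᶜ.Connected ∧
    ∃ f : Fin (n + 1) → V, Function.Injective (fun i => tri G (f i)) := by
  classical
  induction n with
  | zero =>
    refine ⟨Fin 3 × Fin 3, inferInstance, inferInstance, rook, inferInstance, 4, 3, 3, rook_good,
      rook_connected, rook_co_connected, fun _ => (0, 0), ?_⟩
    intro i j _
    exact Fin.ext (by omega)
  | succ n ih =>
    obtain ⟨W, hW1, hW2, H, hHd, d, k, l, hH, -, -, f, hf⟩ := ih
    obtain ⟨d', k', l', h1, h2, h3⟩ := step H hH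
    refine ⟨_, inferInstance, inferInstance, lex rook (lex base H), inferInstance, d', k', l',
      h1, h2, h3, Fin.snoc (fun i => ((0, 0), (Sum.inl (0, 0), f i)))
        ((0, 0), (Sum.inr (0, 0), f 0)), ?_⟩
    have hreg2 := lex_regular base H base_regular hH.reg
    have key : ∃ c : ℕ, ∀ (s : (Fin 3 × Fin 3) ⊕ (Fin 3 × Fin 2)) (w : W),
        tri (lex rook (lex base H)) ((0, 0), (s, w)) =
          c + tri base s * Fintype.card W ^ 2 + tri H w := by
      refine ⟨4 * Fintype.card (((Fin 3 × Fin 3) ⊕ (Fin 3 × Fin 2)) × W) ^ 2 +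
        3 * (4 * (4 * Fintype.card W + d) *
          Fintype.card (((Fin 3 × Fin 3) ⊕ (Fin 3 × Fin 2)) × W)) +
        3 * (4 * d * Fintype.card W), fun s w => ?_⟩
      rw [tri_lex rook (lex base H) rook_regular hreg2, tri_lex base H base_regular hH.reg,
        rook_tri]
      ring
    obtain ⟨c, key⟩ := key
    have hm : 0 < Fintype.card W := Fintype.card_pos
    have hm2 : 0 < Fintype.card W ^ 2 := by positivity
    intro i j hij
    simp only at hij
    induction i using Fin.lastCases with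
    | last =>
      induction j using Fin.lastCases with
      | last => rfl
      | cast j =>
        exfalso
        simp only [Fin.snoc_last, Fin.snoc_castSucc, key, base_tri_inl, base_tri_inr] at hij
        have := tri_lt H hH.reg (f j)
        omega
    | cast i =>
      induction j using Fin.lastCases with
      | last =>
        exfalso
        simp only [Fin.snoc_last, Fin.snoc_castSucc, key, base_tri_inl, base_tri_inr] at hij
        have := tri_lt H hH.reg (f i)
        omega
      | cast j =>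
        simp only [Fin.snoc_castSucc, key, base_tri_inl] at hij
        have h5 : tri H (f i) = tri H (f j) := by omega
        rw [hf h5]

/-- There are regular CIS graphs `G` such that `G` and its complement are connected, well-covered
and irreducible, which are not vertex-transitive; moreover the automorphism group of such a graph
may have arbitrarily many orbits of vertices. -/
theorem result (n : ℕ) : ∃ (V : Type) (_ : Finite V) (G : SimpleGraph V),
    (∃ d : ℕ, ∀ v : V, (G.neighborSet v).ncard = d) ∧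
    IsCIS G ∧ G.Connected ∧ Gᶜ.Connected ∧ IsWellCovered G ∧ IsWellCovered Gᶜ ∧
    IsIrreducible G ∧ IsIrreducible Gᶜ ∧
    ¬ IsVertexTransitive G ∧
    (∃ f : Fin n → V, ∀ i j : Fin n, i ≠ j → ¬ ∃ φ : G ≃g G, φ (f i) = f j) := by
  obtain ⟨V, hV, hV2, G, hG, d, k, l, h, hc, hcc, f, hf⟩ := main_aux (n + 1)
  refine ⟨V, inferInstance, G, ⟨d, h.reg⟩, h.cis, hc, hcc,
    fun S T hS hT => by rw [h.wc S hS, h.wc T hT],
    fun S T hS hT => by rw [h.cowc S hS, h.cowc T hT], h.irr, h.coirr, ?_, ?_⟩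
  · intro hvt
    obtain ⟨φ, hφ⟩ := hvt (f 0) (f 1)
    have h1 := tri_iso G φ (f 0)
    rw [hφ] at h1
    have h2 : (1 : Fin (n + 1 + 1)) = 0 := hf h1
    simp at h2
  · refine ⟨fun i => f ((i.castSucc).castSucc), ?_⟩
    rintro i j hij ⟨φ, hφ⟩
    have h1 := tri_iso G φ (f ((i.castSucc).castSucc))
    rw [hφ] at h1
    have h2 : j.castSucc.castSucc = i.castSucc.castSucc := hf h1
    apply hij
    simpa using h2.symm

end Pool.Agent.Results.MP_509871_co.ManyOrbits
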